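import Mathlib
import Pool.Agent.N674.LT.Wrap

set_option autoImplicit false

/-!
# The Lieb-Thirring inequality for arbitrarily many functions with few transversal modes

The first `k` coordinates are the longitudinal ones, the last `m` coordinates the transversal ones.
Proof: in the longitudinal coordinates the sharp matrix inequality of the starting files (lifting in
the dimension, `Helper717/LT`), in the transversal coordinates the sharp scalar inequalities in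
dimension one, iterated with the inequality of Hölder. The scalar inequalities are better than the
semiclassical ones, by the factor `N_d² / N_k²` in total, and `n` modes cost the factor `n²`.
-/

open MeasureTheory Set Filter Topology

namespace Pool.Agent.Results.MP_cfe56d_mp.TransversalModes

/-- `u_1, …, u_N` are orthonormal in `L²`. -/
def Ortho {d N : ℕ} (u : Fin N → (Fin d → ℝ) → ℂ) : Prop :=
  ∀ n n', ∫ x, (starRingEnd ℂ) (u n x) * u n' x = if n = n' then 1 else 0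

/-- `∫ ρ ^ (1 + 2 / d)` for the density `ρ = ∑ |u_n|²`. -/
noncomputable def densityInt {d N : ℕ} (u : Fin N → (Fin d → ℝ) → ℂ) : ℝ :=
  ∫ x, (∑ n, ‖u n x‖ ^ 2) ^ (1 + 2 / (d : ℝ))

/-- The kinetic energy `∑ ∫ |∇ u_n|²`. -/
noncomputable def kinetic {d N : ℕ} (u : Fin N → (Fin d → ℝ) → ℂ) : ℝ :=
  ∑ n, ∑ q, ∫ x, ‖fderiv ℝ (u n) x (Pi.single q 1)‖ ^ 2

/-- The semiclassical constant `d / (d + 2) * (2π)² / ω_d ^ (2 / d)`. -/
noncomputable def Kcl (d : ℕ) : ℝ :=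
  d / (d + 2) * ((2 * Real.pi) ^ 2 /
    (volume (Metric.ball (0 : EuclideanSpace ℝ (Fin d)) 1)).toReal ^ ((2 : ℝ) / d))

/-- `N_d = ((d + 1) ^ (d - 1) (d + 2) ^ d / 4 ^ d) ^ (1 / 2) / d!`. -/
noncomputable def Nd (d : ℕ) : ℝ :=
  √(((d:ℝ) + 1) ^ (d - 1) * ((d:ℝ) + 2) ^ d / (4 ^ d * (d.factorial : ℝ) ^ 2))

/-- The point of `ℝ^(m + k)` with the first `k` coordinates `t` and the last `m` coordinates `y`. -/
def join {m k : ℕ} (t : Fin k → ℝ) (y : Fin m → ℝ) : Fin (m + k) → ℝ := fun j =>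
  if h : (j : ℕ) < k then t ⟨j, h⟩ else y ⟨j - k, by have := j.isLt; omega⟩

/-- `u_1, …, u_N` have at most `n` transversal modes: for fixed first `k` coordinates `t` all
`u_i(t, ·)` are linear combinations of `n` real functions `φ_a` on `ℝ^m` (which may depend on
`t`). -/
def FewModes {m k N : ℕ} (n : ℕ) (u : Fin N → (Fin (m + k) → ℝ) → ℂ) : Prop :=
  ∀ t : Fin k → ℝ, ∃ φ : Fin n → (Fin m → ℝ) → ℝ, ∀ i, ∃ c : Fin n → ℂ, ∀ y,
    u i (join t y) = ∑ a, c a * (φ a y : ℂ)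

/-- **The Lieb-Thirring inequality for arbitrarily many functions with few transversal modes.** -/
theorem result :
    -- (1) the constant `σ K_d^cl` for `d = m + k` and `4 σ ^ d n² N_k² ≤ 3 N_d²`
    (∀ m k n N : ℕ, 1 ≤ k → ∀ u : Fin N → (Fin (m + k) → ℝ) → ℂ, (∀ i, ContDiff ℝ 1 (u i)) →
      (∀ i, HasCompactSupport (u i)) → Ortho u → FewModes n u →
      ∀ σ : ℝ, 0 ≤ σ → 4 * (σ ^ (m + k) * ((n:ℝ) ^ 2 * Nd k ^ 2)) ≤ 3 * Nd (m + k) ^ 2 →
      σ * Kcl (m + k) * densityInt u ≤ kinetic u) ∧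
    -- (2) in particular the semiclassical constant if `n ≤ N_d`, `k ≤ 2`
    (∀ m k n N : ℕ, 1 ≤ k → k ≤ 2 → ∀ u : Fin N → (Fin (m + k) → ℝ) → ℂ,
      (∀ i, ContDiff ℝ 1 (u i)) → (∀ i, HasCompactSupport (u i)) → Ortho u → FewModes n u →
      (n:ℝ) ≤ Nd (m + k) → Kcl (m + k) * densityInt u ≤ kinetic u) ∧
    -- (3) the size of `N_d`
    (∀ d : ℕ, 4 ≤ d → 1 < Nd d) ∧ (∀ d : ℕ, 8 ≤ d → 2 ≤ Nd d) ∧ (∀ d : ℕ, 16 ≤ d → 10 ≤ Nd d) ∧
    ∀ c : ℝ, 0 ≤ c → c < Real.exp 1 / 2 → ∀ᶠ d : ℕ in atTop, c ^ d ≤ Nd d := by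
  refine ⟨?_, ?_, fun d hd => Pool.Agent.N674.LT.one_lt_Nd hd,
    fun d hd => Pool.Agent.N674.LT.two_le_Nd hd, fun d hd => Pool.Agent.N674.LT.ten_le_Nd hd,
    fun c h0 h1 => Pool.Agent.N674.LT.Nd_growth h0 h1⟩
  · intro m k n N hk u hu hc ho hmod σ hσ hs
    refine Pool.Agent.N674.LT.modes_complex (n := n) hk hσ ?_ u hu hc ho hmod
    show 4 * (σ ^ (m + k) * (Nd k ^ 2 * (n:ℝ) ^ 2)) ≤ 3 * Nd (m + k) ^ 2
    linarith
  · intro m k n N hk hk2 u hu hc ho hmod hn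
    have h34 : Nd k ^ 2 = 3 / 4 := by
      rcases (show k = 1 ∨ k = 2 by omega) with rfl | rfl
      · exact Pool.Agent.N674.LT.Nd_one
      · exact Pool.Agent.N674.LT.Nd_two
    have h := Pool.Agent.N674.LT.modes_complex (σ := 1) hk zero_le_one (by
      have h1 : (n:ℝ) ^ 2 ≤ Nd (m + k) ^ 2 := pow_le_pow_left₀ (Nat.cast_nonneg n) hn 2
      show 4 * (1 ^ (m + k) * (Nd k ^ 2 * (n:ℝ) ^ 2)) ≤ 3 * Nd (m + k) ^ 2
      rw [h34, one_pow]
      linarith) u hu hc ho hmod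
    rw [one_mul] at h
    exact h

end Pool.Agent.Results.MP_cfe56d_mp.TransversalModes
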